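import Pool.Agent.TH197.Sym.Bounds

/-!
# Symmetric sets without progressions with coordinate-restricted differences

We view `F_p^{dn}` as the set of words of length `n` over the alphabet `F_p^d` and look at the
`D`-progression-free sets that are invariant under many permutations of the `n` letters. Their
exponential growth rate is the solution of a finite problem.
-/

set_option autoImplicit false
set_option linter.unusedSectionVars false

namespace Pool.Agent.Results.MP_03d2c1_co.BlockSymmetricGrowth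

open Finset Equiv Filter Topology

/-- `A ⊆ F_p^n` is `D`-progression-free: there are no `x ∈ F_p^n` and `y ∈ D^n`, `y ≠ 0`, with
`x`, `x + y`, `x + 2y` in `A`. -/
def DFree (p : ℕ) (D : Finset (ZMod p)) (n : ℕ) (A : Finset (Fin n → ZMod p)) : Prop :=
  ∀ x y : Fin n → ZMod p, (∀ i, y i ∈ D) → x ∈ A → x + y ∈ A → x + y + y ∈ A → y = 0

/-- Property (R) of the problem. -/
def PropertyR (p : ℕ) (D : Finset (ZMod p)) : Prop :=
  ∃ C : ℝ, C < p ∧ ∀ n : ℕ, 1 ≤ n → ∀ A : Finset (Fin n → ZMod p), DFree p D n A →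
    (A.card : ℝ) ≤ C ^ n

/-- The same as `DFree` in `F_p^{dn}`, whose elements are written as sequences of `n` blocks of
length `d`. -/
def BlockDFree (p : ℕ) (D : Finset (ZMod p)) (d n : ℕ)
    (A : Finset (Fin n → Fin d → ZMod p)) : Prop :=
  ∀ x y : Fin n → Fin d → ZMod p, (∀ i j, y i j ∈ D) → x ∈ A → x + y ∈ A → x + y + y ∈ A → y = 0

/-- `A` is invariant under the permutation `σ` of the `n` blocks. -/
def Inv (p d n : ℕ) (σ : Perm (Fin n)) (A : Finset (Fin n → Fin d → ZMod p)) : Prop :=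
  ∀ x ∈ A, (fun i => x (σ i)) ∈ A

/-- The largest size of a `D`-progression-free subset of `F_p^{dn}` that is invariant under all the
permutations of the `n` blocks of length `d`. -/
noncomputable def rblk (p : ℕ) (D : Finset (ZMod p)) (d n : ℕ) : ℕ :=
  sSup {m : ℕ | ∃ A : Finset (Fin n → Fin d → ZMod p),
    BlockDFree p D d n A ∧ (∀ σ : Perm (Fin n), Inv p d n σ A) ∧ A.card = m}

/-- `S ⊆ F_p^d` carries a balanced weight: a function `w ≠ 0` with values in `ℕ` on the pairs
`(x, y)` with `y ∈ D^d`, `y ≠ 0` and `x, x + y, x + 2y ∈ S` such that for every `s` the sum of `w`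
over the pairs with `x = s`, over those with `x + y = s` and over those with `x + 2y = s` are
equal. -/
def Balanced (p : ℕ) (D : Finset (ZMod p)) (d : ℕ) [NeZero p]
    (S : Finset (Fin d → ZMod p)) : Prop :=
  ∃ w : (Fin d → ZMod p) × (Fin d → ZMod p) → ℕ, (∃ q, w q ≠ 0) ∧
    (∀ q, w q ≠ 0 → q.2 ≠ 0 ∧ (∀ j, q.2 j ∈ D) ∧ q.1 ∈ S ∧ q.1 + q.2 ∈ S ∧
      q.1 + q.2 + q.2 ∈ S) ∧
    ∀ s, ((∑ q, if q.1 + q.2 = s then w q else 0) = ∑ q, if q.1 = s then w q else 0) ∧
      (∑ q, if q.1 + q.2 + q.2 = s then w q else 0) = ∑ q, if q.1 = s then w q else 0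

/-- The largest size of a subset of `F_p^d` that carries no balanced weight. -/
noncomputable def M (p : ℕ) (D : Finset (ZMod p)) (d : ℕ) [NeZero p] : ℕ :=
  sSup {m : ℕ | ∃ S : Finset (Fin d → ZMod p), ¬ Balanced p D d S ∧ S.card = m}

section

variable {p : ℕ} [hpf : Fact p.Prime] {D : Finset (ZMod p)}

/-- the difference, replaced by `0` if it is not in `D^d` -/
def df (D : Finset (ZMod p)) {d : ℕ} (y : Fin d → ZMod p) : Fin d → ZMod p :=
  if ∀ j, y j ∈ D then y else 0

/-- the three terms -/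
def F (D : Finset (ZMod p)) (d : ℕ) :
    Fin 3 → (Fin d → ZMod p) × (Fin d → ZMod p) → (Fin d → ZMod p) :=
  ![fun q => q.1, fun q => q.1 + df D q.2, fun q => q.1 + df D q.2 + df D q.2]

/-- nontrivial patterns -/
def nt (D : Finset (ZMod p)) (d : ℕ) (q : (Fin d → ZMod p) × (Fin d → ZMod p)) : Prop :=
  q.2 ≠ 0 ∧ ∀ j, q.2 j ∈ D

lemma df_mem (hD : 0 ∈ D) {d : ℕ} (y : Fin d → ZMod p) (j : Fin d) : df D y j ∈ D := by
  unfold df
  split_ifs with h
  · exact h j
  · exact hD

lemma df_of_mem {d : ℕ} {y : Fin d → ZMod p} (h : ∀ j, y j ∈ D) : df D y = y := if_pos h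

lemma df_of_not_nt {d : ℕ} {x y : Fin d → ZMod p} (h : ¬ nt D d (x, y)) : df D y = 0 := by
  unfold df
  split_ifs with h1
  · by_contra h2
    exact h ⟨h2, h1⟩
  · rfl

lemma card_G (d : ℕ) : Fintype.card (Fin d → ZMod p) = p ^ d := by
  rw [Fintype.card_fun, ZMod.card, Fintype.card_fin]

lemma balanced_iff (d : ℕ) (S : Finset (Fin d → ZMod p)) :
    Balanced p D d S ↔ TH197.Sym.Balanced (F D d) (nt D d) S := by
  have hz : ∀ (w : (Fin d → ZMod p) × (Fin d → ZMod p) → ℕ),
      (∀ q, w q ≠ 0 → ∀ j, q.2 j ∈ D) → ∀ s,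
      (∑ q, if F D d 1 q = s then w q else 0) = (∑ q, if q.1 + q.2 = s then w q else 0) ∧
      (∑ q, if F D d 2 q = s then w q else 0) =
        (∑ q, if q.1 + q.2 + q.2 = s then w q else 0) := by
    intro w hw s
    constructor
    · apply Finset.sum_congr rfl
      intro q _
      by_cases hq : w q = 0
      · rw [hq]
        simp
      · have : F D d 1 q = q.1 + q.2 := by
          show q.1 + df D q.2 = _
          rw [df_of_mem (hw q hq)]
        rw [this]
    · apply Finset.sum_congr rfl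
      intro q _
      by_cases hq : w q = 0
      · rw [hq]
        simp
      · have : F D d 2 q = q.1 + q.2 + q.2 := by
          show q.1 + df D q.2 + df D q.2 = _
          rw [df_of_mem (hw q hq)]
        rw [this]
  constructor
  · rintro ⟨w, h1, h2, h3⟩
    refine ⟨w, h1, fun q hq => ?_, ?_⟩
    · obtain ⟨a1, a2, a3, a4, a5⟩ := h2 q hq
      refine ⟨⟨a1, a2⟩, ?_⟩
      intro i
      fin_cases i
      · exact a3
      · show q.1 + df D q.2 ∈ S
        rw [df_of_mem a2]
        exact a4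
      · show q.1 + df D q.2 + df D q.2 ∈ S
        rw [df_of_mem a2]
        exact a5
    · have hw := hz w (fun q hq => (h2 q hq).2.1)
      have key : ∀ (i : Fin 3) (s : Fin d → ZMod p), (∑ q, if F D d i q = s then w q else 0) =
          ∑ q, if q.1 = s then w q else 0 := by
        intro i s
        fin_cases i
        · rfl
        · exact (hw s).1.trans (h3 s).1
        · exact (hw s).2.trans (h3 s).2
      intro i j s
      rw [key i s, key j s]
  · rintro ⟨w, h1, h2, h3⟩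
    have hw := hz w (fun q hq => (h2 q hq).1.2)
    refine ⟨w, h1, fun q hq => ?_, ?_⟩
    · obtain ⟨⟨a1, a2⟩, a3⟩ := h2 q hq
      refine ⟨a1, a2, a3 0, ?_, ?_⟩
      · have : F D d 1 q = q.1 + q.2 := by
          show q.1 + df D q.2 = _
          rw [df_of_mem a2]
        rw [← this]
        exact a3 1
      · have : F D d 2 q = q.1 + q.2 + q.2 := by
          show q.1 + df D q.2 + df D q.2 = _
          rw [df_of_mem a2]
        rw [← this]
        exact a3 2
    · intro s
      exact ⟨(hw s).1.symm.trans (h3 1 0 s), (hw s).2.symm.trans (h3 2 0 s)⟩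

lemma free_of (hD : 0 ∈ D) {d n : ℕ} {A : Finset (Fin n → Fin d → ZMod p)}
    (hA : BlockDFree p D d n A) : TH197.Sym.Free (F D d) (nt D d) A := by
  intro q hq c hc
  have h3 := hA (fun c => (q c).1) (fun c => df D (q c).2) (fun c j => df_mem hD _ j)
    (hq 0) (hq 1) (hq 2)
  have h4 : df D (q c).2 = 0 := congrFun h3 c
  rw [df_of_mem hc.2] at h4
  exact hc.1 h4

lemma dfree_of {d n : ℕ} {A : Finset (Fin n → Fin d → ZMod p)}
    (hA : TH197.Sym.Free (F D d) (nt D d) A) : BlockDFree p D d n A := by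
  intro x y hy h0 h1 h2
  have h3 := hA (fun c => (x c, y c)) (by
    intro i
    fin_cases i
    · exact h0
    · have : (fun c => F D d 1 (x c, y c)) = x + y := by
        funext c
        show x c + df D (y c) = x c + y c
        rw [df_of_mem (hy c)]
      show (fun c => F D d 1 (x c, y c)) ∈ A
      rw [this]
      exact h1
    · have : (fun c => F D d 2 (x c, y c)) = x + y + y := by
        funext c
        show x c + df D (y c) + df D (y c) = x c + y c + y c
        rw [df_of_mem (hy c)]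
      show (fun c => F D d 2 (x c, y c)) ∈ A
      rw [this]
      exact h2)
  funext c
  by_contra hc
  exact h3 c ⟨hc, hy c⟩

lemma M_bdd (d : ℕ) :
    BddAbove {m : ℕ | ∃ S : Finset (Fin d → ZMod p), ¬ Balanced p D d S ∧ S.card = m} := by
  refine ⟨Fintype.card (Fin d → ZMod p), ?_⟩
  rintro m ⟨B, _, rfl⟩
  exact Finset.card_le_univ B

lemma le_M {d : ℕ} {S : Finset (Fin d → ZMod p)} (hS : ¬ Balanced p D d S) :
    S.card ≤ M p D d := le_csSup (M_bdd d) ⟨S, hS, rfl⟩

lemma unbalanced_of_free {d : ℕ} {S : Finset (Fin d → ZMod p)} (hS : DFree p D d S) :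
    ¬ Balanced p D d S := by
  rintro ⟨w, ⟨q, hq⟩, h, _⟩
  obtain ⟨h1, h2, h3, h4, h5⟩ := h q hq
  exact h1 (hS q.1 q.2 h2 h3 h4 h5)

lemma exists_M (d : ℕ) :
    ∃ S : Finset (Fin d → ZMod p), ¬ Balanced p D d S ∧ S.card = M p D d :=
  Nat.sSup_mem (s := {m : ℕ | ∃ S : Finset (Fin d → ZMod p), ¬ Balanced p D d S ∧ S.card = m})
    ⟨0, ∅, unbalanced_of_free (by intro x y _ h; simp at h), rfl⟩ (M_bdd d)

lemma single_free (d : ℕ) : DFree p D d {0} := by
  intro x y _ h0 h1 _
  rw [Finset.mem_singleton] at h0 h1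
  rwa [h0, zero_add] at h1

lemma one_le_M (d : ℕ) : 1 ≤ M p D d := by
  have := le_M (D := D) (unbalanced_of_free (single_free (p := p) (D := D) d))
  rwa [Finset.card_singleton] at this

lemma M_le_card (d : ℕ) : M p D d ≤ Fintype.card (Fin d → ZMod p) := by
  obtain ⟨S, _, hS⟩ := exists_M (p := p) (D := D) d
  rw [← hS]
  exact Finset.card_le_univ S

lemma hmax (d : ℕ) (S : Finset (Fin d → ZMod p)) (hS : ¬ TH197.Sym.Balanced (F D d) (nt D d) S) :
    S.card ≤ M p D d := le_M (fun h => hS ((balanced_iff d S).1 h))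

lemma df_zero {d : ℕ} : df D (0 : Fin d → ZMod p) = 0 := by
  unfold df
  split_ifs <;> rfl

lemma hτ (d : ℕ) (i : Fin 3) (v : Fin d → ZMod p) : F D d i (v, 0) = v := by
  fin_cases i
  · rfl
  · show v + df D 0 = v
    rw [df_zero, add_zero]
  · show v + df D 0 + df D 0 = v
    rw [df_zero, add_zero, add_zero]

lemma htriv (d : ℕ) (q : (Fin d → ZMod p) × (Fin d → ZMod p)) (hq : ¬ nt D d q) (i j : Fin 3) :
    F D d i q = F D d j q := by
  have key : ∀ i : Fin 3, F D d i q = q.1 := by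
    intro i
    have h0 : df D q.2 = 0 := df_of_not_nt (x := q.1) hq
    fin_cases i
    · rfl
    · show q.1 + df D q.2 = q.1
      rw [h0, add_zero]
    · show q.1 + df D q.2 + df D q.2 = q.1
      rw [h0, add_zero, add_zero]
  rw [key i, key j]

lemma rblk_bdd (d n : ℕ) : BddAbove {m : ℕ | ∃ A : Finset (Fin n → Fin d → ZMod p),
    BlockDFree p D d n A ∧ (∀ σ : Perm (Fin n), Inv p d n σ A) ∧ A.card = m} := by
  refine ⟨Fintype.card (Fin n → Fin d → ZMod p), ?_⟩
  rintro m ⟨B, _, _, rfl⟩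
  exact Finset.card_le_univ B

lemma rblk_upper (hD : 0 ∈ D) (d : ℕ) :
    ∃ C : ℕ, ∀ n : ℕ, 1 ≤ n → rblk p D d n ≤ C * n ^ C * M p D d ^ n := by
  obtain ⟨C, hC⟩ := TH197.Sym.upper (F := F D d) (nt := nt D d) 0 (fun v => (v, 0)) (hτ d)
    (M p D d) (one_le_M d) (M_le_card d) (hmax d)
  refine ⟨C, fun n hn => ?_⟩
  apply csSup_le'
  rintro t ⟨A, hA, hS, rfl⟩
  exact hC n A hn (free_of hD hA) hS

lemma rblk_lower (d n : ℕ) : M p D d ^ n ≤ (n + 1) ^ (p ^ d) * rblk p D d n := by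
  obtain ⟨S, hS, hc⟩ := exists_M (p := p) (D := D) d
  obtain ⟨A, hA, hSy, h1⟩ := TH197.Sym.lower (F := F D d) (nt := nt D d) (htriv d) 0 S
    (fun h => hS ((balanced_iff d S).2 h)) n
  rw [hc, card_G] at h1
  refine h1.trans (Nat.mul_le_mul_left _ ?_)
  exact le_csSup (rblk_bdd d n) ⟨A, dfree_of hA, hSy, rfl⟩

lemma card_real (d : ℕ) : (Fintype.card (Fin d → ZMod p) : ℝ) = (p : ℝ) ^ d := by
  rw [card_G]
  push_cast
  rfl

lemma local_bound (hD : 0 ∈ D) (d : ℕ) {ε : ℝ} (hε : 0 < ε) :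
    ∃ T : ℕ, ∀ (n : ℕ) (c : Fin n → Fin n) (A : Finset (Fin n → Fin d → ZMod p)),
      BlockDFree p D d n A → (∀ σ : Perm (Fin n), (∀ i, c (σ i) = c i) → Inv p d n σ A) →
      ∀ m : ℕ, m = (univ.filter fun i => T ≤ (univ.filter fun j => c j = c i).card).card →
      (A.card : ℝ) ≤ (M p D d + ε) ^ m * ((p : ℝ) ^ d) ^ (n - m) := by
  obtain ⟨T, hT⟩ := TH197.Sym.classes (F := F D d) (nt := nt D d) 0 (fun v => (v, 0)) (hτ d)
    (M p D d) (one_le_M d) (M_le_card d) (hmax d) hε
  refine ⟨T, fun n c A hA hc m hm => ?_⟩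
  have h1 := hT n (Fin n) c A (free_of hD hA) (fun i j hij x hx =>
    hc (swap i j) (fun z => by
      rw [swap_apply_def]
      split_ifs with e1 e2
      · rw [e1, hij]
      · rw [e2, hij]
      · rfl) x hx) m hm
  rwa [card_real] at h1

lemma large_bound (hD : 0 ∈ D) (d : ℕ) {ε : ℝ} (hε : 0 < ε) :
    ∃ δ : ℝ, 0 < δ ∧ ∃ n₀ : ℕ, ∀ n : ℕ, n₀ ≤ n → ∀ H : Subgroup (Perm (Fin n)),
      (H.index : ℝ) ≤ (n.factorial : ℝ) ^ δ → ∀ A : Finset (Fin n → Fin d → ZMod p),
      BlockDFree p D d n A → (∀ σ ∈ H, Inv p d n σ A) → (A.card : ℝ) ≤ (M p D d + ε) ^ n := by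
  obtain ⟨δ, hδ, n₀, h⟩ := TH197.Sym.large (F := F D d) (nt := nt D d) 0 (fun v => (v, 0)) (hτ d)
    (M p D d) (one_le_M d) (M_le_card d) (hmax d) hε
  exact ⟨δ, hδ, n₀, fun n hn H hH A hA hA2 => h n hn A H (free_of hD hA) hA2 hH⟩

/-! ### Bounds for `M` -/

/-- the points of the line through `x` in the direction `v` -/
def ln {d : ℕ} (v x z : Fin d → ZMod p) : Prop := ∃ j : ZMod p, z = x + j • v

lemma ln_add {d : ℕ} (v x z : Fin d → ZMod p) : ln v x (z - v) ↔ ln v x z := by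
  constructor
  · rintro ⟨j, hj⟩
    refine ⟨j + 1, ?_⟩
    rw [add_smul, one_smul, ← add_assoc, ← hj, sub_add_cancel]
  · rintro ⟨j, hj⟩
    refine ⟨j - 1, ?_⟩
    rw [sub_smul, one_smul, hj, add_sub_assoc]

open Classical in
lemma balanced_of_line {d : ℕ} (hd : 1 ≤ d) {a : ZMod p} (ha : a ≠ 0) (haD : a ∈ D)
    (S : Finset (Fin d → ZMod p)) (x : Fin d → ZMod p)
    (hx : ∀ j : ZMod p, x + j • (fun _ : Fin d => a) ∈ S) : Balanced p D d S := by
  set v : Fin d → ZMod p := fun _ => a with hv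
  have hv0 : v ≠ 0 := by
    intro h
    exact ha (congrFun h ⟨0, hd⟩)
  have hS : ∀ z, ln v x z → z ∈ S := by
    rintro z ⟨j, rfl⟩
    exact hx j
  have hadd : ∀ z, ln v x z → ln v x (z + v) := by
    intro z hz
    have := (ln_add v x (z + v)).1 (by rwa [add_sub_cancel_right])
    exact this
  refine ⟨fun q => if q.2 = v ∧ ln v x q.1 then 1 else 0, ⟨(x, v), ?_⟩, ?_, ?_⟩
  · show (if v = v ∧ ln v x x then 1 else 0) ≠ 0
    rw [if_pos ⟨rfl, ⟨0, by rw [zero_smul, add_zero]⟩⟩]
    exact one_ne_zero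
  · intro q hq
    have hq' : q.2 = v ∧ ln v x q.1 := by
      by_contra h
      exact hq (if_neg h)
    obtain ⟨h1, h2⟩ := hq'
    rw [h1]
    exact ⟨hv0, fun _ => haD, hS _ h2, hS _ (hadd _ h2), hS _ (hadd _ (hadd _ h2))⟩
  · intro s
    have key : ∀ (f : (Fin d → ZMod p) × (Fin d → ZMod p) → (Fin d → ZMod p))
        (g : Fin d → ZMod p),
        (∀ q : (Fin d → ZMod p) × (Fin d → ZMod p), q.2 = v → (f q = s ↔ q.1 = g)) →
        (ln v x g ↔ ln v x s) →
        (∑ q : (Fin d → ZMod p) × (Fin d → ZMod p),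
          if f q = s then (if q.2 = v ∧ ln v x q.1 then 1 else 0) else 0) =
          if ln v x s then 1 else 0 := by
      intro f g hf hg
      rw [Finset.sum_eq_single (g, v)]
      · rw [if_pos ((hf (g, v) rfl).2 rfl)]
        by_cases h : ln v x s
        · rw [if_pos h, if_pos ⟨rfl, hg.2 h⟩]
        · rw [if_neg h, if_neg (fun h' => h (hg.1 h'.2))]
      · intro q _ hq
        by_cases h1 : f q = s
        · rw [if_pos h1]
          apply if_neg
          rintro ⟨h2, _⟩
          apply hq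
          rw [← (hf q h2).1 h1, ← h2]
        · rw [if_neg h1]
      · intro h
        exact absurd (Finset.mem_univ _) h
    have e0 := key (fun q => q.1) s (fun q _ => Iff.rfl) Iff.rfl
    have e1 := key (fun q => q.1 + q.2) (s - v) (by
      intro q hq
      show q.1 + q.2 = s ↔ _
      rw [hq, eq_sub_iff_add_eq]) (ln_add v x s)
    have e2 := key (fun q => q.1 + q.2 + q.2) (s - v - v) (by
      intro q hq
      show q.1 + q.2 + q.2 = s ↔ _
      rw [hq, eq_sub_iff_add_eq, eq_sub_iff_add_eq]) ((ln_add v x (s - v)).trans (ln_add v x s))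
    exact ⟨e1.trans e0.symm, e2.trans e0.symm⟩

lemma M_upper (d : ℕ) (hd : 1 ≤ d) {a : ZMod p} (ha : a ≠ 0) (haD : a ∈ D) :
    p * M p D d ≤ (p - 1) * p ^ d := by
  classical
  obtain ⟨S, hS, hc⟩ := exists_M (p := p) (D := D) d
  have h1 : ∀ g : Fin d → ZMod p,
      (univ.filter fun z : Fin d → ZMod p => z + g ∉ S).card ≤ (Sᶜ).card := by
    intro g
    apply Finset.card_le_card_of_injOn (fun z => z + g)
    · intro z hz
      rw [Finset.mem_coe, Finset.mem_compl]
      exact (Finset.mem_filter.1 hz).2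
    · intro z _ z' _ h
      exact add_right_cancel h
  have h2 : (univ : Finset (Fin d → ZMod p)) ⊆ (univ : Finset (ZMod p)).biUnion
      (fun j => univ.filter fun z : Fin d → ZMod p => z + j • (fun _ : Fin d => a) ∉ S) := by
    intro z _
    by_contra hcon
    apply hS
    apply balanced_of_line hd ha haD S z
    intro j
    by_contra hj
    apply hcon
    rw [Finset.mem_biUnion]
    exact ⟨j, mem_univ _, by rw [Finset.mem_filter]; exact ⟨mem_univ _, hj⟩⟩
  have h3 : p ^ d ≤ p * (Sᶜ).card := by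
    calc p ^ d = (univ : Finset (Fin d → ZMod p)).card := by rw [Finset.card_univ, card_G]
      _ ≤ _ := Finset.card_le_card h2
      _ ≤ ∑ j : ZMod p, (univ.filter fun z : Fin d → ZMod p =>
          z + j • (fun _ : Fin d => a) ∉ S).card := Finset.card_biUnion_le
      _ ≤ ∑ _j : ZMod p, (Sᶜ).card := Finset.sum_le_sum (fun j _ => h1 _)
      _ = p * (Sᶜ).card := by
        rw [Finset.sum_const, Finset.card_univ, ZMod.card, smul_eq_mul]
  have h4 := Finset.card_compl_add_card S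
  rw [card_G, hc] at h4
  have h5 : p * (Sᶜ).card + p * M p D d = p * p ^ d := by rw [← mul_add, h4]
  have h6 : (p - 1) * p ^ d + p ^ d = p * p ^ d := by
    have : 1 ≤ p := hpf.out.pos
    obtain ⟨r, hr⟩ : ∃ r, p = r + 1 := ⟨p - 1, by omega⟩
    rw [hr, Nat.add_sub_cancel]
    ring
  omega

lemma val_succ {z : ZMod p} (hz : z ≠ -1) : (z + 1).val = z.val + 1 := by
  have : Fact (1 < p) := ⟨hpf.out.one_lt⟩
  have h1 : z.val + 1 < p := by
    by_contra h
    apply hz
    have h2 : z.val < p := ZMod.val_lt z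
    have h3 : z.val = p - 1 := by omega
    have h4 : ((z.val : ℕ) : ZMod p) = z := ZMod.natCast_zmod_val z
    rw [← h4, h3, Nat.cast_sub hpf.out.one_lt.le, ZMod.natCast_self, Nat.cast_one, zero_sub]
  rw [ZMod.val_add_of_lt, ZMod.val_one]
  rw [ZMod.val_one]
  exact h1

lemma M_lower (d : ℕ) {a : ZMod p} (ha : a ≠ 0) (hD : D = {0, a}) : (p - 1) ^ d ≤ M p D d := by
  classical
  set S : Finset (Fin d → ZMod p) := Fintype.piFinset (fun _ : Fin d => univ.erase (-a)) with hS
  have hmem : ∀ x : Fin d → ZMod p, x ∈ S → ∀ i, x i ≠ -a := by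
    intro x hx i
    exact (Finset.mem_erase.1 (Fintype.mem_piFinset.1 hx i)).1
  have hcard : S.card = (p - 1) ^ d := by
    rw [hS, Fintype.card_piFinset]
    simp [Finset.card_erase_of_mem, ZMod.card]
  rw [← hcard]
  apply le_M
  rintro ⟨w, ⟨q₀, hq₀⟩, h, hbal⟩
  set f : (Fin d → ZMod p) → ℕ := fun x => ∑ i, (a⁻¹ * x i).val with hf
  have e : ∀ g : (Fin d → ZMod p) × (Fin d → ZMod p) → (Fin d → ZMod p),
      ∑ q, w q * f (g q) = ∑ s, (∑ q, if g q = s then w q else 0) * f s := by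
    intro g
    simp_rw [Finset.sum_mul]
    rw [Finset.sum_comm]
    apply Finset.sum_congr rfl
    intro q _
    rw [Finset.sum_eq_single (g q)]
    · rw [if_pos rfl]
    · intro s _ hs
      rw [if_neg (fun h => hs h.symm), zero_mul]
    · intro h
      exact absurd (mem_univ _) h
  have h1 : ∑ q, w q * f (q.1 + q.2) = ∑ q, w q * f q.1 := by
    rw [e (fun q => q.1 + q.2), e (fun q => q.1)]
    exact Finset.sum_congr rfl (fun s _ => by rw [(hbal s).1])
  have hlt : ∀ q, w q ≠ 0 → f q.1 < f (q.1 + q.2) := by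
    intro q hq
    obtain ⟨a0, a1, a2, _, _⟩ := h q hq
    have hstep : ∀ i, q.2 i ≠ 0 → (a⁻¹ * (q.1 + q.2) i).val = (a⁻¹ * q.1 i).val + 1 := by
      intro i hi
      have h2 : q.2 i = a := by
        have h3 := a1 i
        rw [hD, Finset.mem_insert, Finset.mem_singleton] at h3
        exact h3.resolve_left hi
      rw [Pi.add_apply, h2, mul_add, inv_mul_cancel₀ ha]
      apply val_succ
      intro h3
      apply hmem _ a2 i
      have h4 : a * (a⁻¹ * q.1 i) = a * (-1) := by rw [h3]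
      rw [← mul_assoc, mul_inv_cancel₀ ha, one_mul] at h4
      rw [h4]
      ring
    obtain ⟨i, hi⟩ : ∃ i, q.2 i ≠ 0 := by
      by_contra h
      push Not at h
      exact a0 (funext h)
    apply Finset.sum_lt_sum
    · intro j _
      by_cases hj : q.2 j = 0
      · rw [Pi.add_apply, hj, add_zero]
      · rw [hstep j hj]
        omega
    · refine ⟨i, mem_univ _, ?_⟩
      rw [hstep i hi]
      omega
  have h2 : ∑ q, w q * f q.1 < ∑ q, w q * f (q.1 + q.2) := by
    apply Finset.sum_lt_sum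
    · intro q _
      by_cases hq : w q = 0
      · rw [hq, zero_mul, zero_mul]
      · exact Nat.mul_le_mul_left _ (hlt q hq).le
    · exact ⟨q₀, mem_univ _, Nat.mul_lt_mul_of_pos_left (hlt q₀ hq₀) (Nat.pos_of_ne_zero hq₀)⟩
  exact h2.ne h1.symm

/-! ### The equivalence -/

/-- blocks of length `d`, flattened -/
def flat (d n : ℕ) (x : Fin n → Fin d → ZMod p) : Fin (n * d) → ZMod p :=
  fun c => x (finProdFinEquiv.symm c).1 (finProdFinEquiv.symm c).2

lemma flat_bij (d n : ℕ) : Function.Bijective (flat (p := p) d n) := by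
  constructor
  · intro x x' h
    funext i j
    have h1 := congrFun h (finProdFinEquiv (i, j))
    simpa [flat] using h1
  · intro z
    refine ⟨fun i j => z (finProdFinEquiv (i, j)), ?_⟩
    funext c
    show z (finProdFinEquiv (finProdFinEquiv.symm c)) = z c
    rw [Equiv.apply_symm_apply]

lemma flat_add (d n : ℕ) (x y : Fin n → Fin d → ZMod p) :
    flat d n (x + y) = flat d n x + flat d n y := rfl

lemma rblk_le {C : ℝ} {N d n : ℕ} (hN : N = n * d) (h : ∀ A : Finset (Fin N → ZMod p),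
    DFree p D N A → (A.card : ℝ) ≤ C ^ N) : (rblk p D d n : ℝ) ≤ C ^ N := by
  classical
  subst hN
  obtain ⟨A, hA, _, hc⟩ : ∃ A : Finset (Fin n → Fin d → ZMod p),
      BlockDFree p D d n A ∧ (∀ σ : Perm (Fin n), Inv p d n σ A) ∧ A.card = rblk p D d n :=
    Nat.sSup_mem (s := {m : ℕ | ∃ A : Finset (Fin n → Fin d → ZMod p),
      BlockDFree p D d n A ∧ (∀ σ : Perm (Fin n), Inv p d n σ A) ∧ A.card = m})
      ⟨0, ∅, by intro x y _ h; simp at h, by intro σ x hx; simp at hx, rfl⟩ (rblk_bdd d n)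
  rw [← hc, ← Finset.card_image_of_injective A (flat_bij (p := p) d n).1]
  apply h
  have hm : ∀ x, flat d n x ∈ A.image (flat d n) → x ∈ A := by
    intro x h
    rw [Finset.mem_image] at h
    obtain ⟨z, hz, hzz⟩ := h
    rwa [← (flat_bij (p := p) d n).1 hzz]
  intro X Y hY h0 h1 h2
  obtain ⟨x, rfl⟩ := (flat_bij (p := p) d n).2 X
  obtain ⟨y, rfl⟩ := (flat_bij (p := p) d n).2 Y
  rw [← flat_add] at h1 h2
  rw [← flat_add] at h2
  have h3 := hA x y (fun i j => by
    have h4 := hY (finProdFinEquiv (i, j))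
    simpa [flat] using h4) (hm _ h0) (hm _ h1) (hm _ h2)
  rw [h3]
  rfl

/-- If `a^N ≤ (N + 1)^e b^N` for all `N ≥ 1` then `a ≤ b`. -/
lemma le_of_pow_le {a b : ℝ} {e : ℕ} (hb : 0 ≤ b)
    (h : ∀ N : ℕ, 1 ≤ N → a ^ N ≤ ((N : ℝ) + 1) ^ e * b ^ N) : a ≤ b := by
  by_contra hab
  push Not at hab
  have ha0 : 0 < a := lt_of_le_of_lt hb hab
  have hq0 : 0 ≤ b / a := by positivity
  have hq1 : b / a < 1 := (div_lt_one ha0).2 hab
  have h1 := tendsto_pow_const_mul_const_pow_of_abs_lt_one e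
    (show |b / a| < 1 by rwa [abs_of_nonneg hq0])
  have h3 := h1.const_mul ((2 : ℝ) ^ e)
  rw [mul_zero] at h3
  have h4 := (h3.eventually (gt_mem_nhds (show (0 : ℝ) < 1 by norm_num))).and
    (Filter.eventually_ge_atTop 1)
  obtain ⟨N, hN, hN1⟩ := h4.exists
  have h5 := h N hN1
  have h6 : (0 : ℝ) < a ^ N := by positivity
  have h7 : 1 ≤ ((N : ℝ) + 1) ^ e * (b / a) ^ N := by
    rw [div_pow, mul_div_assoc', le_div_iff₀ h6, one_mul]
    exact h5
  have h8 : ((N : ℝ) + 1) ^ e ≤ 2 ^ e * (N : ℝ) ^ e := by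
    rw [← mul_pow]
    have : (1 : ℝ) ≤ N := by exact_mod_cast hN1
    exact pow_le_pow_left₀ (by positivity) (by linarith) e
  have h9 : ((N : ℝ) + 1) ^ e * (b / a) ^ N ≤ 2 ^ e * ((N : ℝ) ^ e * (b / a) ^ N) := by
    rw [← mul_assoc]
    exact mul_le_mul_of_nonneg_right h8 (by positivity)
  linarith

lemma property_iff : PropertyR p D ↔
    ∃ C : ℝ, C < p ∧ ∀ d : ℕ, 1 ≤ d → (M p D d : ℝ) ≤ C ^ d := by
  constructor
  · rintro ⟨C, hC, h⟩
    have hC1 : 1 ≤ C := by
      have := h 1 le_rfl {0} (single_free (p := p) (D := D) 1)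
      rw [Finset.card_singleton, pow_one] at this
      exact_mod_cast this
    refine ⟨C, hC, fun d hd => ?_⟩
    refine le_of_pow_le (e := p ^ d) (by positivity) ?_
    intro N hN
    have h1 : ((M p D d : ℕ) : ℝ) ^ N ≤ ((N : ℝ) + 1) ^ (p ^ d) * (rblk p D d N : ℝ) := by
      exact_mod_cast rblk_lower (p := p) (D := D) d N
    have h2 := rblk_le (p := p) (D := D) (C := C) (d := d) (n := N) rfl
      (h (N * d) (Nat.mul_pos hN hd))
    have h3 : C ^ (N * d) = (C ^ d) ^ N := by rw [← pow_mul, mul_comm]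
    rw [h3] at h2
    exact h1.trans (mul_le_mul_of_nonneg_left h2 (by positivity))
  · rintro ⟨C, hC, h⟩
    refine ⟨C, hC, fun n hn A hA => ?_⟩
    have h1 : (A.card : ℝ) ≤ M p D n := by exact_mod_cast le_M (unbalanced_of_free hA)
    exact h1.trans (h n hn)

end

/-- Let `p` be a prime and `0 ∈ D ⊆ F_p`, and let `M d` be the largest size of a subset of `F_p^d`
without a balanced weight.
(1) For `d ≥ 1` the largest size `rblk d n` of a `D`-progression-free subset of `F_p^{dn}` that is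
invariant under the permutations of the `n` blocks of length `d` is `M^n` up to a factor `C n^C`.
(2) For `d ≥ 1` and `ε > 0` there is a `T` such that `|A| ≤ (M + ε)^m p^{d(n - m)}` for the
`D`-progression-free sets `A ⊆ F_p^{dn}` which are invariant under the permutations that preserve
the classes of a partition of the `n` blocks, where `m` is the number of the blocks in the classes
with at least `T` elements; and there are `δ > 0` and `n₀` such that `|A| ≤ (M + ε)^n` if `n ≥ n₀`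
and `A ⊆ F_p^{dn}` is `D`-progression-free and invariant under a group `H` of permutations of the
`n` blocks whose index in the symmetric group is at most `(n!)^δ`.
(3) `M d ≤ (1 - 1/p) p^d` for `d ≥ 1` if `D ≠ {0}`, and `M d ≥ (p - 1)^d` if `D = {0, a}`, `a ≠ 0`.
(4) `D` has property (R) if and only if there is a `C < p` with `M d ≤ C^d` for all `d ≥ 1`. -/
theorem result (p : ℕ) [Fact p.Prime] (D : Finset (ZMod p)) (hD : 0 ∈ D) :
    (∀ d : ℕ, 1 ≤ d → ∃ C : ℕ, ∀ n : ℕ, 1 ≤ n → rblk p D d n ≤ C * n ^ C * M p D d ^ n ∧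
      M p D d ^ n ≤ C * n ^ C * rblk p D d n) ∧
    (∀ d : ℕ, 1 ≤ d → ∀ ε : ℝ, 0 < ε →
      (∃ T : ℕ, ∀ (n : ℕ) (c : Fin n → Fin n) (A : Finset (Fin n → Fin d → ZMod p)),
        BlockDFree p D d n A → (∀ σ : Perm (Fin n), (∀ i, c (σ i) = c i) → Inv p d n σ A) →
        ∀ m : ℕ, m = (univ.filter fun i => T ≤ (univ.filter fun j => c j = c i).card).card →
        (A.card : ℝ) ≤ (M p D d + ε) ^ m * ((p : ℝ) ^ d) ^ (n - m)) ∧
      ∃ δ : ℝ, 0 < δ ∧ ∃ n₀ : ℕ, ∀ n : ℕ, n₀ ≤ n → ∀ H : Subgroup (Perm (Fin n)),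
        (H.index : ℝ) ≤ (n.factorial : ℝ) ^ δ → ∀ A : Finset (Fin n → Fin d → ZMod p),
        BlockDFree p D d n A → (∀ σ ∈ H, Inv p d n σ A) → (A.card : ℝ) ≤ (M p D d + ε) ^ n) ∧
    (∀ d : ℕ, 1 ≤ d → (D ≠ {0} → p * M p D d ≤ (p - 1) * p ^ d) ∧
      ((∃ a : ZMod p, a ≠ 0 ∧ D = {0, a}) → (p - 1) ^ d ≤ M p D d)) ∧
    (PropertyR p D ↔ ∃ C : ℝ, C < p ∧ ∀ d : ℕ, 1 ≤ d → (M p D d : ℝ) ≤ C ^ d) := by
  refine ⟨fun d _ => ?_, fun d _ ε hε => ⟨local_bound hD d hε, large_bound hD d hε⟩,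
    fun d hd => ⟨fun h => ?_, fun ⟨a, ha, hDa⟩ => M_lower d ha hDa⟩, property_iff⟩
  · obtain ⟨C, hC⟩ := rblk_upper (p := p) hD d
    have hL := rblk_lower (p := p) (D := D) d
    obtain ⟨E, hE⟩ : ∃ E, E = p ^ d := ⟨_, rfl⟩
    obtain ⟨G, hG⟩ : ∃ G, G = 2 ^ E := ⟨_, rfl⟩
    rw [← hE] at hL
    refine ⟨C + E + G, fun n hn => ⟨(hC n hn).trans ?_, (hL n).trans ?_⟩⟩
    · exact Nat.mul_le_mul_right _ (Nat.mul_le_mul (by omega)
        (Nat.pow_le_pow_right hn (by omega)))
    · apply Nat.mul_le_mul_right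
      calc (n + 1) ^ E ≤ (2 * n) ^ E := Nat.pow_le_pow_left (by omega) _
        _ = G * n ^ E := by rw [mul_pow, hG]
        _ ≤ (C + E + G) * n ^ (C + E + G) :=
          Nat.mul_le_mul (by omega) (Nat.pow_le_pow_right hn (by omega))
  · obtain ⟨a, haD, ha⟩ : ∃ a ∈ D, a ≠ 0 := by
      by_contra hcon
      push Not at hcon
      apply h
      ext x
      rw [Finset.mem_singleton]
      exact ⟨fun hx => hcon x hx, fun hx => hx ▸ hD⟩
    exact M_upper d hd ha haD

end Pool.Agent.Results.MP_03d2c1_co.BlockSymmetricGrowth
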